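import Pool.Agent.helper13.BN.Defs2
import Pool.Agent.helper58.BN.Solve
import Pool.Agent.helper53.BN.Dens
import Pool.Agent.helper52.BN.OdeDir
import Pool.Agent.helper40.BN.Lap
import Pool.Agent.helper73.BN.Zonal
import Pool.Agent.helper22.BN.AxSp
import Pool.Agent.helper22.BN.Smooth

/-! # MP_94a57f_an, module C1: the solution operator on axially symmetric functions -/

set_option autoImplicit false
open MeasureTheory Filter Topology Set Metric
open scoped ContDiff Gradient RealInnerProductSpace ENNReal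

noncomputable section
namespace Pool.Agent.helper13.BN
variable {N : ℕ}

theorem cyl_axial {e : E N} (y q : ℝ → ℝ) (hy : Measurable y) (hq : Measurable q) :
    Axial e (cyl N e y q) := by
  refine ⟨fun z => z.1 ^ (-cc N) * y (-Real.log z.1) * q (z.2 / z.1), ?_, ?_⟩
  · have h1 : Measurable (fun z : ℝ × ℝ => z.1 ^ (-cc N)) := measurable_fst.pow_const _
    have h2 : Measurable (fun z : ℝ × ℝ => y (-Real.log z.1)) :=
      hy.comp (Real.measurable_log.comp measurable_fst).neg
    have h3 : Measurable (fun z : ℝ × ℝ => q (z.2 / z.1)) :=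
      hq.comp (measurable_snd.div measurable_fst)
    exact (h1.mul h2).mul h3
  · exact Eventually.of_forall fun x => rfl

theorem axial_indicator91 {e : E N} {ρ : ℝ} {h : E N → ℝ} (hh : Axial e h) :
    Axial e ((ann N ρ).indicator h) := by
  obtain ⟨k, hk, hkh⟩ := hh
  refine ⟨fun z => ({z : ℝ × ℝ | ρ < z.1 ∧ z.1 < 1}).indicator k z, ?_, ?_⟩
  · exact hk.indicator ((measurableSet_lt measurable_const measurable_fst).inter
      (measurableSet_lt measurable_fst measurable_const))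
  · filter_upwards [hkh] with x hx
    by_cases hxa : x ∈ ann N ρ
    · rw [Set.indicator_of_mem hxa, hx, Set.indicator_of_mem]
      exact hxa
    · rw [Set.indicator_of_notMem hxa, Set.indicator_of_notMem]
      exact hxa

/-- the smoothness of the functions `cyl` off the origin -/
theorem cyl_contDiffAt91 {e : E N} {x : E N} (hx : x ≠ 0) {y q : ℝ → ℝ}
    (hy : ContDiff ℝ 2 y) (hq : ContDiff ℝ 2 q) : ContDiffAt ℝ 2 (cyl N e y q) x := by
  have hr : ‖x‖ ≠ 0 := norm_ne_zero_iff.2 hx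
  have hn : ContDiffAt ℝ 2 (fun x : E N => ‖x‖) x := contDiffAt_norm ℝ hx
  unfold cyl
  refine (ContDiffAt.mul ?_ ?_).mul ?_
  · exact (Real.contDiffAt_rpow_const_of_ne hr).comp x hn
  · exact hy.contDiffAt.comp x ((hn.log hr).neg)
  · refine hq.contDiffAt.comp x (ContDiffAt.div ?_ hn hr)
    exact (contDiff_id.inner ℝ contDiff_const).contDiffAt

theorem cc_pos91 (hN : 3 ≤ N) : 0 < cc N := by
  unfold cc
  have : (3 : ℝ) ≤ N := by exact_mod_cast hN
  linarith

/-- for `λ = 0` the solution of the initial value problem does not vanish -/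
theorem yf_zero_ne91 {ν : ℝ} {L : ℝ} (hL : 0 < L) : yf ν 0 L ≠ 0 := by
  obtain ⟨h0, h1, hd, h2⟩ := yf_spec ν 0
  have hq : ∀ t, qf ν 0 t = ν ^ 2 := fun t => by simp [qf]
  simp only [hq] at h2
  -- the energy
  have hE : ∀ t, HasDerivAt (fun t => deriv (yf ν 0) t ^ 2 - ν ^ 2 * yf ν 0 t ^ 2) 0 t := by
    intro t
    have h3 := ((h2 t).pow 2).sub (((hd t).hasDerivAt.pow 2).const_mul (ν ^ 2))
    refine h3.congr_deriv ?_
    simp only [Nat.cast_ofNat, Nat.add_one_sub_one, pow_one]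
    ring
  have hconst : ∀ t, deriv (yf ν 0) t ^ 2 - ν ^ 2 * yf ν 0 t ^ 2 = 1 := by
    intro t
    have h3 := is_const_of_deriv_eq_zero (fun t => (hE t).differentiableAt)
      (fun t => (hE t).deriv) t 0
    rw [h0, h1] at h3
    rw [h3]
    ring
  have hne : ∀ t, deriv (yf ν 0) t ≠ 0 := by
    intro t ht
    have h3 := hconst t
    rw [ht] at h3
    nlinarith [mul_nonneg (sq_nonneg ν) (sq_nonneg (yf ν 0 t))]
  intro hyL
  obtain ⟨c, hc, hc'⟩ := exists_deriv_eq_zero hL hd.continuous.continuousOn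
    (show yf ν 0 0 = yf ν 0 L by rw [h0, hyL])
  exact hne c hc'

/-- the Dirichlet problem for one mode, `λ = 0` -/
theorem T_mode (hN : 3 ≤ N) {ρ : ℝ} (hρ : 0 < ρ) (hρ1 : ρ < 1) {e : E N} (he : ‖e‖ = 1)
    (j : ℕ) {h : ℝ → ℝ} (hh : ContDiff ℝ ∞ h) :
    ∃ y : ℝ → ℝ, ContDiff ℝ ∞ y ∧ y 0 = 0 ∧ y (-Real.log ρ) = 0 ∧
      fn (T (ann N ρ) (cyl N e h (Pz N j))) =ᵐ[volume] (ann N ρ).indicator (cyl N e y (Pz N j)) := by
  have hL : 0 < -Real.log ρ := by
    have := Real.log_neg hρ hρ1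
    linarith
  have hN' : (3 : ℝ) ≤ N := by exact_mod_cast hN
  obtain ⟨δ, C, hδ, -, -, hsol⟩ := dirichlet_solve ((j : ℝ) + cc N) hL
    (yf_zero_ne91 (ν := (j : ℝ) + cc N) hL)
  obtain ⟨B, hB⟩ := (isCompact_Icc (a := (0 : ℝ)) (b := -Real.log ρ + 1)).exists_bound_of_continuousOn
    hh.continuous.continuousOn
  obtain ⟨y, hy, hy0, hyL, hyd, -⟩ := hsol 0 (-Real.log ρ) (by simpa using hδ) (by simpa using hδ)
    h hh B (fun t ht => by simpa using hB t ht)
  refine ⟨y, hy, hy0, hyL, ?_⟩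
  have hy2 : ContDiff ℝ 2 y := contDiff_infty.1 hy 2
  have hP2 : ContDiff ℝ 2 (Pz N j) := contDiff_infty.1 (Pz_contDiff N j) 2
  have hann : MeasurableSet (ann N ρ) := (isOpen_ann' N ρ).measurableSet
  obtain ⟨w, hw, hwfn, -⟩ := weak_C2 hN hρ hρ1 (G := cyl N e y (Pz N j))
    (fun x hx => cyl_contDiffAt91 hx hy2 hP2)
    (fun x hx => by simp [cyl, hx, hy0])
    (fun x hx => by simp [cyl, hx, hyL])
  have hlap : ∀ x : E N, x ≠ 0 → - lap (cyl N e y (Pz N j)) x = cyl N e h (Pz N j) x := by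
    intro x hx
    have hr : 0 < ‖x‖ := norm_pos_iff.2 hx
    rw [lap_cyl he hx hy2 hP2, Pz_ode N j hN, hyd]
    have he2 : Real.exp (-2 * -Real.log ‖x‖) = ‖x‖ ^ (2 : ℝ) := by
      rw [Real.rpow_def_of_pos hr]
      congr 1
      ring
    have hsplit : ‖x‖ ^ (-cc N) = ‖x‖ ^ (-cc N - 2) * ‖x‖ ^ (2 : ℝ) := by
      rw [← Real.rpow_add hr]
      congr 1
      ring
    rw [he2]
    unfold cyl
    rw [hsplit]
    have hcc : qf ((j : ℝ) + cc N) 0 (-Real.log ‖x‖) = cc N ^ 2 + j * (j + N - 2) := by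
      unfold qf cc
      ring
    rw [hcc]
    ring
  have hTw : T (ann N ρ) (cyl N e h (Pz N j)) = w := by
    symm
    refine (weak_iff_T hN hann (cyl_memLp hρ e hh.continuous j _)).1 ⟨hw.1, fun φ W hφ hW => ?_⟩
    rw [hw.2 φ W hφ hW]
    refine integral_congr_ae (Eventually.of_forall fun x => ?_)
    by_cases hx : x ∈ tsupport φ
    · have hx' := hφ.2.2 hx
      have hx0 : x ≠ 0 := by
        rintro rfl
        have := hx'.1
        rw [norm_zero] at this
        linarith
      simp only [hlap x hx0]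
    · simp only [image_eq_zero_of_notMem_tsupport hx, mul_zero]
  rw [hTw]
  exact hwfn

theorem td_bounds91 (hN : 3 ≤ N) : 1 ≤ td N ∧ td N ≤ 2 := by
  have hN' : (3 : ℝ) ≤ N := by exact_mod_cast hN
  unfold td
  constructor
  · rw [le_div_iff₀ (by linarith)]
    linarith
  · rw [div_le_iff₀ (by linarith)]
    linarith

/-- bounded (truncated) right hand sides -/
theorem T_axial_L2_91 (hN : 3 ≤ N) {ρ : ℝ} (hρ : 0 < ρ) (hρ1 : ρ < 1) {e : E N} (he : ‖e‖ = 1)
    {g : E N → ℝ} (hg : Mq 2 (ann N ρ) g) (hA : Axial e g) :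
    T (ann N ρ) g ∈ XS e ρ := by
  have hann : MeasurableSet (ann N ρ) := (isOpen_ann' N ρ).measurableSet
  obtain ⟨ht1, ht2⟩ := td_bounds91 hN
  have hball : ann N ρ ⊆ ball (0 : E N) 1 := fun x hx => by simpa using hx.2
  obtain ⟨C, hC, hCle⟩ := exists_nq_le (N := N) (R := 1) ht1 ht2
  have hg' : Mq (td N) (ann N ρ) g := Mq_mono hball (by linarith) ht2 hg
  have hcl : IsClosed (XS e ρ : Set (LV N)) := Submodule.isClosed_topologicalClosure _
  rw [← SetLike.mem_coe, ← hcl.closure_eq, Metric.mem_closure_iff]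
  intro ε hε
  have hSS := SS_pos (N := N)
  obtain ⟨m, h, hh, hle⟩ := modes_approx hN hρ hρ1 he hA hg (ε := ε / (2 * SS N * C)) (by positivity)
  -- the sum of modes
  have hsum : ∀ n : ℕ, Mq (td N) (ann N ρ) (fun x => ∑ j ∈ Finset.range n, cyl N e (h j) (Pz N j) x) ∧
      T (ann N ρ) (fun x => ∑ j ∈ Finset.range n, cyl N e (h j) (Pz N j) x) ∈ XS e ρ := by
    intro n
    induction n with
    | zero =>
      simp only [Finset.range_zero, Finset.sum_empty]
      have h0 : Mq (td N) (ann N ρ) (fun _ : E N => (0 : ℝ)) := MemLp.zero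
      refine ⟨h0, ?_⟩
      have h1 := T_smul hN hann (0 : ℝ) h0
      simp only [mul_zero, zero_smul] at h1
      rw [h1]
      exact Submodule.zero_mem _
    | succ n ih =>
      simp only [Finset.sum_range_succ]
      have h1 : Mq (td N) (ann N ρ) (cyl N e (h n) (Pz N n)) := cyl_memLp hρ e (hh n).continuous n _
      refine ⟨ih.1.add h1, ?_⟩
      rw [T_add hN hann ih.1 h1]
      refine Submodule.add_mem _ ih.2 ?_
      obtain ⟨y, hy, -, -, hfn⟩ := T_mode hN hρ hρ1 he n (hh n)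
      refine (mem_XS hN).2 ⟨T_mem _ _, ?_⟩
      exact axial_ae (axial_indicator91 (cyl_axial y (Pz N n) hy.continuous.measurable
        (Pz_contDiff N n).continuous.measurable)) hfn.symm
  have hsum2 : Mq 2 (ann N ρ) (fun x => ∑ j ∈ Finset.range m, cyl N e (h j) (Pz N j) x) := by
    have := memLp_finsetSum (Finset.range m) (f := fun j => cyl N e (h j) (Pz N j))
      (p := ENNReal.ofReal 2) (μ := volume.restrict (ann N ρ))
      (fun j _ => cyl_memLp hρ e (hh j).continuous j _)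
    exact this
  refine ⟨T (ann N ρ) (fun x => ∑ j ∈ Finset.range m, cyl N e (h j) (Pz N j) x), (hsum m).2, ?_⟩
  rw [dist_eq_norm, ← T_sub hN hann hg' (hsum m).1]
  have h1 := T_norm hN hann (hg'.sub (hsum m).1 :
    Mq (td N) (ann N ρ) (fun x => g x - ∑ j ∈ Finset.range m, cyl N e (h j) (Pz N j) x))
  have h2 := hCle (ann N ρ) hball (fun x => g x - ∑ j ∈ Finset.range m, cyl N e (h j) (Pz N j) x)
    (hg.sub hsum2)
  calc _ ≤ SS N * (C * (ε / (2 * SS N * C))) :=
        h1.trans (mul_le_mul_of_nonneg_left (h2.trans (mul_le_mul_of_nonneg_left hle hC.le)) hSS.le)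
    _ = ε / 2 := by field_simp
    _ < ε := by linarith

theorem T_axial (hN : 3 ≤ N) {ρ : ℝ} (hρ : 0 < ρ) (hρ1 : ρ < 1) {e : E N} (he : ‖e‖ = 1)
    {g : E N → ℝ} (hg : Mq (td N) (ann N ρ) g) (hA : Axial e ((ann N ρ).indicator g)) :
    T (ann N ρ) g ∈ XS e ρ := by
  have hann : MeasurableSet (ann N ρ) := (isOpen_ann' N ρ).measurableSet
  obtain ⟨ht1, ht2⟩ := td_bounds91 hN
  have hball : ann N ρ ⊆ ball (0 : E N) 1 := fun x hx => by simpa using hx.2
  have : IsFiniteMeasure (volume.restrict (ann N ρ)) :=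
    ⟨by rw [Measure.restrict_apply_univ]; exact vol_ann_lt_top N ρ⟩
  have hSS := SS_pos (N := N)
  -- truncation
  obtain ⟨k, hk, hkg⟩ := hA
  set G : ℕ → E N → ℝ := fun n x =>
    (fun z : ℝ × ℝ => if |k z| ≤ n then k z else 0) (‖x‖, ⟪x, e⟫) with hG
  have hGm : ∀ n : ℕ, Measurable (fun z : ℝ × ℝ => if |k z| ≤ n then k z else 0) := fun n =>
    Measurable.ite (measurableSet_le hk.abs measurable_const) hk measurable_const
  have hGA : ∀ n, Axial e (G n) := fun n => ⟨_, hGm n, Eventually.of_forall fun x => rfl⟩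
  have hpm : Measurable (fun x : E N => (‖x‖, ⟪x, e⟫)) := by
    refine measurable_norm.prodMk ?_
    exact (continuous_id.inner continuous_const).measurable
  have hGb : ∀ n, ∀ q : ℝ, Mq q (ann N ρ) (G n) := by
    intro n q
    refine MemLp.of_bound ((hGm n).comp hpm).aestronglyMeasurable n (Eventually.of_forall fun x => ?_)
    simp only [hG, Real.norm_eq_abs]
    split_ifs with h
    · exact h
    · simp
  have hgk : ∀ᵐ x ∂(volume.restrict (ann N ρ)), g x = k (‖x‖, ⟪x, e⟫) := by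
    filter_upwards [ae_restrict_of_ae hkg, ae_restrict_mem hann] with x hx hxa
    rw [← hx, Set.indicator_of_mem hxa]
  have hlim : Tendsto (fun n => eLpNorm (fun x => G n x - g x) (ENNReal.ofReal (td N))
      (volume.restrict (ann N ρ))) atTop (𝓝 0) := by
    have h1 : ENNReal.ofReal (td N) ≠ ⊤ := ENNReal.ofReal_ne_top
    have h2 : 1 ≤ ENNReal.ofReal (td N) := by
      rw [ENNReal.one_le_ofReal]
      exact ht1
    refine tendsto_Lp_finite_of_tendsto_ae h2 h1 (fun n => (hGb n (td N)).aestronglyMeasurable) hg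
      ?_ ?_
    · intro ε hε
      obtain ⟨δ, hδ, hδ'⟩ := unifIntegrable_const (ι := ℕ) h2 h1 hg hε
      refine ⟨δ, hδ, fun n s hs hμ => (eLpNorm_mono_ae ?_).trans (hδ' 0 s hs hμ)⟩
      filter_upwards [hgk] with x hx
      by_cases hxs : x ∈ s
      · rw [Set.indicator_of_mem hxs, Set.indicator_of_mem hxs, hx]
        simp only [hG]
        split_ifs with h
        · exact le_rfl
        · simp
      · rw [Set.indicator_of_notMem hxs, Set.indicator_of_notMem hxs]
    · filter_upwards [hgk] with x hx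
      rw [hx]
      obtain ⟨n₀, hn₀⟩ := exists_nat_ge |k (‖x‖, ⟪x, e⟫)|
      refine tendsto_const_nhds.congr' ?_
      filter_upwards [eventually_ge_atTop n₀] with n hn
      simp only [hG]
      rw [if_pos (hn₀.trans (by exact_mod_cast hn))]
  have hcl : IsClosed (XS e ρ : Set (LV N)) := Submodule.isClosed_topologicalClosure _
  refine hcl.mem_of_tendsto (f := fun n => T (ann N ρ) (G n)) (b := atTop) ?_
    (Eventually.of_forall fun n => T_axial_L2_91 hN hρ hρ1 he (hGb n 2) (hGA n))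
  rw [tendsto_iff_norm_sub_tendsto_zero]
  have hle : ∀ n, ‖T (ann N ρ) (G n) - T (ann N ρ) g‖
      ≤ SS N * nq (td N) (ann N ρ) (fun x => G n x - g x) := by
    intro n
    rw [← T_sub hN hann (hGb n _) hg]
    exact T_norm hN hann ((hGb n (td N)).sub hg)
  refine squeeze_zero (fun n => norm_nonneg _) hle ?_
  have h3 := (ENNReal.tendsto_toReal ENNReal.zero_ne_top).comp hlim
  have h4 := h3.const_mul (SS N)
  simp only [ENNReal.toReal_zero, mul_zero] at h4
  exact h4

end Pool.Agent.helper13.BN
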